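import Pool.Agent.Helper84.ST.F

/-!
Twin states: two regions for each state (`false`: the last block is one run, `true`: at least two
runs). Their union is a certificate with star shaped regions.
-/

set_option autoImplicit false
noncomputable section
namespace Pool.Agent.Helper84.UC

open Pool.Agent.Helper84.ST
open Pool.Agent.Helper6.MONO
open Pool.Agent.Helper6.MONO.QTR
open Pool.Agent.Helper21.SUP (GS Sch gM gM_append fD SBlk SSt DG DG_nx sD_cons sD_nil sD_append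
  okD_cons okD_append ok1 Ty std Modes)
open Pool.Agent.Helper6.MONO.SV (UY StartY D4)
open Pool.Agent.Helper39.C75 (IsRegion)
open Pool.Agent.Helper39.SLT (BlkCert)

open Pool.Agent.Helper21.SUP renaming nx → nxs

/-- regions respected by the blocks of a scheme, twin states -/
def BlkCertU {τ : Type} (Z : Sch τ) (p q r : ℕ) (RM : GS → ℕ → ℂ → Matrix (Fin 3) (Fin 3) ℂ)
    (w : ℂ) (R : SSt τ → Bool → Set (Fin 3 → ℂ)) : Prop :=
  ∀ (o : Option τ) (f : Bool) (s : GS) (m : ℕ) (ms : List ℕ) (t : τ), DG s →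
    Z.Blk p q r o f s m ms t → ∀ i, ∀ v ∈ R (s, f, o) i,
      (gM RM s (m :: ms) w).mulVec v ∈
        R (sD s (m :: ms), fD p q r f s (m :: ms), some t) (decide (1 ≤ ms.length))

/-- the union of the twins -/
def un {τ : Type} (R : SSt τ → Bool → Set (Fin 3 → ℂ)) (σ : SSt τ) : Set (Fin 3 → ℂ) :=
  {v | ∃ i, v ∈ R σ i}

theorem BlkCertU.un {τ : Type} {Z : Sch τ} {p q r : ℕ}
    {RM : GS → ℕ → ℂ → Matrix (Fin 3) (Fin 3) ℂ} {w : ℂ} {R : SSt τ → Bool → Set (Fin 3 → ℂ)}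
    (h : BlkCertU Z p q r RM w R) : BlkCert Z p q r RM w (UC.un R) := by
  rintro o f s m ms t hs hb v ⟨i, hv⟩
  exact ⟨_, h o f s m ms t hs hb i v hv⟩

/-- THE CERTIFICATE at the frontier point `w`, in the plain charts, twin states -/
structure PCertU (V : RV2) (e : ℝ) (p q r : ℕ) (Y : Modes) (live : SSt Ty → Prop) (C : ℝ) (w : ℂ)
    (R : SSt Ty → Bool → Set V3) : Prop where
  reg : ∀ σ i, IsRegion (R σ i)
  blk : BlkCertU (std Y) p q r (RMb p q r) w R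
  dead : ∀ σ, ¬ live σ → ∀ i, ∀ v, v ∉ R σ i
  ref : ∀ σ, DG σ.1 → live σ → ∀ i, (DG3 p q r σ w).mulVec (rG V p q r σ w) ∈ R σ i
  start : ∀ s, DG s → D4 p q r s → ∀ i,
    (DYm (omS p q r s w)).mulVec (UY V.al V.be e i) ∈ R (s, false, none) false
  slitA : ∀ s f, DG s → ok1 p q r f s 3 → ∀ i, ∀ u ∈ R (s, f, some Ty.A) i,
    DTH (kk p q r s.1 s.2.1) u / u 0 ∈ Complex.slitPlane
  slitP : ∀ s f k, DG s → ok1 p q r f s 3 → ∀ i, ∀ u ∈ R (s, f, some (Ty.P k)) i,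
    DTH (kk p q r s.1 s.2.1) u / u 0 ∈ Complex.slitPlane
  slitQ : ∀ s f k, DG s → ok1 p q r f s k → ∀ i, ∀ u ∈ R (s, f, some (Ty.Q k)) i,
    (RMb p q r s k w).mulVec u 0 / u 0 ∈ Complex.slitPlane
  slitB : ∀ s f, DG s → ok1 p q r f s 2 → ∀ i, ∀ u ∈ R (s, f, some Ty.B) i,
    DTH (kk p q r s.1 s.2.1) u / u 0 ∈ Complex.slitPlane
  bound : ∀ σ i v j, v ∈ R σ i → ‖v j‖ ≤ C * ‖v 0‖

/-- THE UNION OF THE TWINS IS STAR SHAPED -/
theorem PCertU.pcertS {V : RV2} {e : ℝ} {p q r : ℕ} {Y : Modes} {live : SSt Ty → Prop} {C : ℝ}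
    {w : ℂ} {R : SSt Ty → Bool → Set V3} (h : PCertU V e p q r Y live C w R) :
    PCertS V e p q r Y live C w (un R) := by
  refine ⟨fun σ => ⟨?_, ?_⟩, h.blk.un, ?_, fun σ hs hl => ⟨?_, ?_⟩, ?_, ?_, ?_, ?_, ?_, ?_⟩
  · rintro v ⟨i, hv⟩
    exact (h.reg σ i).ne0 v hv
  · rintro c v hc ⟨i, hv⟩
    exact ⟨i, (h.reg σ i).smul c v hc hv⟩
  · rintro σ hl v ⟨i, hv⟩
    exact h.dead σ hl i v hv
  · exact ⟨false, h.ref σ hs hl false⟩
  · rintro v ⟨i, hv⟩ s hs'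
    exact ⟨i, (star_of_region (h.reg σ i) (h.ref σ hs hl i)).2 v hv s hs'⟩
  · exact fun s hs h4 i => ⟨false, h.start s hs h4 i⟩
  · rintro s f hs hok u ⟨i, hu⟩
    exact h.slitA s f hs hok i u hu
  · rintro s f k hs hok u ⟨i, hu⟩
    exact h.slitP s f k hs hok i u hu
  · rintro s f k hs hok u ⟨i, hu⟩
    exact h.slitQ s f k hs hok i u hu
  · rintro s f hs hok u ⟨i, hu⟩
    exact h.slitB s f hs hok i u hu
  · rintro σ v j ⟨i, hv⟩
    exact h.bound σ i v j hv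

theorem pcertU_mono {V : RV2} {e : ℝ} {p q r : ℕ} {Y : Modes} {live : SSt Ty → Prop} {C C' : ℝ}
    {w : ℂ} {R : SSt Ty → Bool → Set V3} (h : C ≤ C') (hR : PCertU V e p q r Y live C w R) :
    PCertU V e p q r Y live C' w R :=
  ⟨hR.reg, hR.blk, hR.dead, hR.ref, hR.start, hR.slitA, hR.slitP, hR.slitQ, hR.slitB,
    fun σ i v j hv => (hR.bound σ i v j hv).trans (mul_le_mul_of_nonneg_right h (norm_nonneg _))⟩

/-- cells with twin states -/
def CellXU (V : RV2) (e : ℝ) (p q r : ℕ) (Y : Modes) (live : SSt Ty → Prop) (x0 a b : ℝ) : Prop :=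
  ∃ C : ℝ, ∀ w, Qt x0 w → a ≤ (xw w).im → (xw w).im ≤ b → ∃ R, PCertU V e p q r Y live C w R

theorem CellXU.cellXS {V : RV2} {e : ℝ} {p q r : ℕ} {Y : Modes} {live : SSt Ty → Prop}
    {x0 a b : ℝ} (h : CellXU V e p q r Y live x0 a b) : CellXS V e p q r Y live x0 a b := by
  obtain ⟨C, h⟩ := h
  refine ⟨C, fun w hw ha hb => ?_⟩
  obtain ⟨R, hR⟩ := h w hw ha hb
  exact ⟨_, hR.pcertS⟩

/-- cells for the quarter: star shaped (or twin) regions -/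
def CU (p q r : ℕ) (x0 a b : ℝ) : Prop := CellXS V0 e0 p q r Y0 (liveT p q r) x0 a b

theorem CU.join {p q r : ℕ} {x0 a b c : ℝ} (h1 : CU p q r x0 a b) (h2 : CU p q r x0 b c) :
    CU p q r x0 a c := CellXS.join h1 h2

theorem cu_of_twin {p q r : ℕ} {x0 a b : ℝ}
    (h : CellXU V0 e0 p q r Y0 (liveT p q r) x0 a b) : CU p q r x0 a b := h.cellXS

theorem cu_of_star {p q r : ℕ} (hp : 3 ≤ p) (hq : 3 ≤ q) (hr : 3 ≤ r) {x0 a b : ℝ}
    (h : TCellS p q r x0 a b) : CU p q r x0 a b := h.cellXS hp hq hr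

theorem cu_of_cell {p q r : ℕ} (hp : 3 ≤ p) (hq : 3 ≤ q) (hr : 3 ≤ r) {x0 a b : ℝ}
    (h : TCell p q r x0 a b) : CU p q r x0 a b := cu_of_star hp hq hr (tcellS_of h)

/-- twin cells in terms of `z` -/
theorem cu_of_z {p q r : ℕ} {x0 a b : ℝ} (hx : -2 < x0) (hx2 : x0 ≤ 2) (C : ℝ)
    (h : ∀ (z : ℂ) (y : ℝ), 0 ≤ y → a ≤ y → y ≤ b → z ≠ 0 → 1 ≤ ‖z‖ → 0 ≤ z.im → (z⁻¹).im ≤ 0 →
      z + z⁻¹ = (x0 : ℂ) + (y : ℂ) * Complex.I →
        ∃ R : SSt Ty → Bool → Set V3, PCertU V0 e0 p q r Y0 (liveT p q r) C (zw z) R) :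
    CU p q r x0 a b := by
  refine cu_of_twin ⟨C, fun w hw ha hb => ?_⟩
  have hz := hw.z hx hx2
  have h1 : 1 - w ≠ 0 := fun h' => hw.ne (by linear_combination -h')
  have h2 := h (wz w) (xw w).im hz.im ha hb hz.z0 hz.one hz.zim hz.uim (by
    rw [hz.x_eq]
    apply Complex.ext
    · simp [hz.re]
    · simp)
  rwa [zw_wz h1] at h2

/-- THE QUARTER from near cells of any kind, middle cells and the far cell -/
theorem qxS_of_cu {p q r : ℕ} (hp : 3 ≤ p) (hq : 3 ≤ q) (hr : 3 ≤ r) {x0 b : ℝ}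
    (hx : -2 < x0) (hx2 : x0 ≤ 2) (hb : 0 ≤ b) (h1 : CU p q r x0 0 b) (h2 : Far p q r x0 b) :
    QXS p q r x0 := by
  obtain ⟨A1, A2, hA⟩ := parts_of_cellsS hx hx2 hb h1 (farS_of h2)
  exact gcert_of_partsS hp hq hr hx (by positivity : (0 : ℝ) < 2 / (4 + b)) A1 A2
    (hA _ _ le_rfl le_rfl)

end Pool.Agent.Helper84.UC
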