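import Pool.Agent.Helper57.U2.F

/-!
Near cells with twin states on the line `xA` for classes with two tails: the order of the last
place is the largest one (hypotheses instead of a condition of the labels).
-/

set_option autoImplicit false
set_option exponentiation.threshold 4000
noncomputable section
namespace Pool.Agent.Helper84.UC

open Pool.Agent.Helper81.MIT
open Pool.Agent.Helper86.CX (Hm P9 VR ev Cx andB)
open Pool.Agent.Helper86.CT (LT2 Mo Mc Mq Sv Vx Cls Prog CellT Rw chkDT mk addM uM zM Alg mkCls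
  clsOK xAM)
open Pool.Agent.Helper90.C75 (Vt)
open Pool.Agent.Helper86.C75 (Z)
open Pool.Agent.Helper90.KMO (zv)
open Pool.Agent.Helper90.KMT (PT TOK KTab CLT)
open Pool.Agent.Helper17.KPT (MK)
open Pool.Agent.Helper6.MONO (V3 RV2 kk mm RMb zw Kp xA LNI_mm Y0 xA_gt xA_le2 xA_max xA_swap Thr)
open Pool.Agent.Helper6.MONO.QTR (V0 e0)
open Pool.Agent.Helper6.MID
open Pool.Agent.Helper6.PIE (z_ne)
open Pool.Agent.Helper6.PRG (giS gsF gsF_giS)
open Pool.Agent.Helper6.MTC (FCert)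
open Pool.Agent.Helper21.KCE (andB_tt)
open Pool.Agent.Helper21.SUP (GS DG gM std)
open Pool.Agent.Helper21.SUP renaming nx → nxs
open Pool.Agent.Helper39.SLT (T4 ML)
open Pool.Agent.Helper39.NCL (WN wS NA)
open Pool.Agent.Helper39.NFT (Ch CBT CAll CPt sideLT sideNT sideWT_iff fam_ptT famOKT_of has_ge lbLe
  lbLe_ok modXT cld_A modXE cld_E cX)
open Pool.Agent.Helper21.KRN (TProg PtR XM expand xOK cκ NZ KResT)
open Pool.Agent.Helper21.KTE (MZ KS wfK CLD chkDT_pt sideT)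
open Pool.Agent.Helper48.NCT (IT FTT NDT chkNT chkPNT pcNT chkIT chkIT_pos ON)
open Pool.Agent.Helper57.KNB (FDT FamTOK)
open Pool.Agent.Helper21.XB (xBp thr_xBp XQD modXQ cld_Q xQM)
open Complex ComplexConjugate

open Pool.Agent.Helper57.U2

variable {p q r : ℕ} {kf kr : ℕ → T4 → ℕ}

section

variable {α β P v γ : Type} {D : ℕ} {lC : α → Vt (D + 1) → Cx} {lf : α → Vt (D + 1) → ℂ}
  {mf : (ℕ → ℝ) → β → (ℕ → ℝ) → ℝ} {lp : P → Vt (D + 1) → P9} {lv : v → Vt (D + 1) → VR}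
  {lg : γ → Vt (D + 1) → ℕ} {Sa : α → List Bool → Prop} {Sp : P → List Bool → Prop}
  {Sv' : v → List Bool → Prop} {Sg : γ → List Bool → Prop} {M : Mc α β P v γ}
  {S : Sv P} {W : Vx β} {Y : ℕ → ℕ → α} {qd : ℕ → Cx → Cx → Cx → α} {rt : α → Bool}

/-- line `xA`, orders with `p ≤ r` and `q ≤ r`, any certificate of the points -/
theorem nearU_A {X : XM α v}
    (hZ : MZ D lC lf mf lp lv lg Sa Sp Sv' Sg M X.Q X.c X.r S W Y qd rt) (hD : D ≤ 3) {ONE : β}
    (h1 : ON mf ONE) {F : FTT α β (FDT β)} (hF : FamTOK (D + 1) lf mf F) {a b c : Lb}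
    (ha : a.has p) (hb : b.has q) (hc : c.has r) (hpr : p ≤ r) (hqr : q ≤ r)
    {s0 s1 s2 : KS} (hx : modXT M rt D X s0 s1 s2 a b c = true)
    (e0 : X.k0 = s0.mo M.A qd) (e1 : X.k1 = s1.mo M.A qd) (e2 : X.k2 = s2.mo M.A qd)
    {W0 W1 W2 : WN} {G : TProg} {il : List IT} {sl : List ℕ} {le : List LT2}
    (hPt : PtU p q r G sl le il W0 W1 W2)
    {f0 f1 f2 : Bool} (g0 : f0 = W0.f) (g1 : f1 = W1.f) (g2 : f2 = W2.f)
    {l : List (NDT α β (FDT β))} (hl : l ≠ []) {As : List NA}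
    (hs : sideLT (sideNT W0 W1 W2 (sideT W le)) l As = true) {y e : ℕ}
    (H : chkPNT M S W Y F f0 f1 f2 X.k0 X.k1 X.k2 (mkCls M.A X.k0 X.k1 X.k2) (expand X G)
      (xAM M.A X.k0 X.k1 X.k2) sl le ONE il e l y = true) :
    TCellU p q r (xA p q r) ((y : ℝ) / 2 ^ 48) ((e : ℝ) / 2 ^ 48) := by
  have hp := has_ge ha
  have hq := has_ge hb
  have hr := has_ge hc
  have hC := cld_A (X := X) hZ hD ha hb hc hx e0 e1 e2
  have t3 : xA q r p ≤ xA p q r := by
    have h := xA_max hq hp hpr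
    rw [xA_swap p q r] at h
    rwa [xA_swap q r p] at h
  exact nearU_G hZ h1 hF hp hq hr hC (xA_gt hp hq hqr) (xA_le2 hp hq hr) le_rfl
    t3 (xA_max hp hq hqr) hPt g0 g1 g2 hl hs H

end

end Pool.Agent.Helper84.UC
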