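import Pool.Agent.Helper84.UC.G
import Pool.Agent.Helper81.MIT.PtD0

/-!
One triple of orders up to `15`: the final statement from the star shaped quarters on every line
close to a given number (the twins of the theorems of `Helper81.MIT.Pt`).
-/

set_option autoImplicit false
set_option exponentiation.threshold 4000
noncomputable section
namespace Pool.Agent.Helper84.UC

open Pool.Agent.Helper6.MONO (Kp xA xA_max' fB fB_eq fBx Thr certB FinAt g_FIN' thr_Kp2)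
open Pool.Agent.Helper21.XB (hB xBc SS KK fBx_xBc hB_PQR)
open Pool.Agent.Helper84.ST (QXS zf_of_qxS)
open Pool.Agent.Helper81.MIT

/-- **ONE TRIPLE** -/
theorem fin_ptS {p q r : ℕ} (hp : 10 ≤ p) (hpq : p ≤ q) (hqr : q ≤ r) (hr : r ≤ 15)
    {X n c1 c2 : ℝ} (hD : PtD (kbx p) (kbx q) (kbx r) X n c1 c2) (hX : -(2 ^ 49) < X - n)
    (hlo : xBc (SS (Kp p) (Kp q) (Kp r)) (KK (Kp p) (Kp q) (Kp r)) c2 < xA p q r ∨
      fB p q r (xBc (SS (Kp p) (Kp q) (Kp r)) (KK (Kp p) (Kp q) (Kp r)) c2) < 0)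
    (h : ∀ x0 : ℝ, |2 ^ 48 * x0 - X| ≤ n →
      xBc (SS (Kp p) (Kp q) (Kp r)) (KK (Kp p) (Kp q) (Kp r)) c2 ≤ x0 → Thr p q r x0 →
      QXS p q r x0 ∧ QXS q p r x0) : FinAt p q r := by
  have h0 := KW.of hp (hpq.trans (hqr.trans hr))
  have h1 := KW.of (hp.trans hpq) (hqr.trans hr)
  have h2 := KW.of (hp.trans (hpq.trans hqr)) hr
  have hK := pt_K h0 h1 h2
  have x1 := pt_X h0 h1 h2 hD.hX hD.hn (hD.k1 c1 (Or.inl rfl)) (hD.k2 c1 (Or.inl rfl))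
  have x2 := pt_X h0 h1 h2 hD.hX hD.hn (hD.k1 c2 (Or.inr rfl)) (hD.k2 c2 (Or.inr rfl))
  have hb := pt_h h0 h1 h2 hD.hc1 (hD.hcc.trans hD.hc2)
  have ha := pt_AG h0 h1 h2
  have hn := pt_N h0 h1 h2 c1
  have hX0 := hD.hX
  have hn0 := hD.hn
  have a1 := hD.a1
  have g1 := hD.h1
  have e1 := KK_xBc (S := SS (Kp p) (Kp q) (Kp r)) (c := c1) hK.ne'
  have e2 := KK_xBc (S := SS (Kp p) (Kp q) (Kp r)) (c := c2) hK.ne'
  have cc : -1 ≤ c1 + c2 := by linarith [hD.hc1, hD.hcc]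
  have cc2 := hD.hcc
  have q1 := hD.hc1
  set S := SS (Kp p) (Kp q) (Kp r) with hS
  set K := KK (Kp p) (Kp q) (Kp r) with hKd
  set lo := xBc S K c2 with hlod
  set hi := xBc S K c1 with hhid
  rw [abs_le] at x1 x2 hb ha hn
  have lh : lo ≤ hi := by
    have : K * lo ≤ K * hi := by
      rw [e1, e2]
      nlinarith
    exact le_of_mul_le_mul_left this hK
  have hA : xA p q r ≤ hi := by
    have : K * xA p q r ≤ K * hi := by linarith [ha.2, hn.1]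
    exact le_of_mul_le_mul_left this hK
  have hB1 : hB S K c1 ≤ 0 := by linarith [hb.2]
  have hBh : 0 ≤ fB p q r hi := by
    have e : fB p q r hi = hB S K c1 * (hB S K c1 - 4 * (2 * c1 + 1) ^ 3) := by
      rw [fB_eq, hhid]
      exact fBx_xBc hK.ne'
    rw [e]
    have k1 : 0 < 2 * c1 + 1 := by linarith
    have k2 : 0 ≤ 4 * (2 * c1 + 1) ^ 3 := by positivity
    nlinarith
  refine g_FIN' p q r (by omega) (by omega) (by omega) (certB (by omega) hpq hqr lo hi ?_ lh ?_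
    hlo hA hBh ?_)
  · nlinarith [x2.1]
  · nlinarith [x1.2]
  · intro x0 k1 k2 hT
    have h3 := h x0 (by rw [abs_le]; constructor <;> nlinarith [x1.2, x2.1]) k1 hT
    exact zf_of_qxS (by omega) hpq hqr (fun h => by omega) hT.gt hT.A1 h3.1 h3.2

/-! ### type A -/

/-- the interval `[(X - n) / 2 ^ 48, (X + n) / 2 ^ 48]` -/
theorem fin_lhS {p q r : ℕ} (hp : 10 ≤ p) (hpq : p ≤ q) (hqr : q ≤ r) {X n : ℝ}
    (hX : -(2 ^ 49) < X - n) (hX2 : X + n ≤ 0) (hn : 0 ≤ n) (lo : (X - n) / 2 ^ 48 < xA p q r)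
    (hi : xA p q r ≤ (X + n) / 2 ^ 48) (hB : 0 ≤ fB p q r ((X + n) / 2 ^ 48))
    (h : ∀ x0 : ℝ, |2 ^ 48 * x0 - X| ≤ n → Thr p q r x0 → QXS p q r x0 ∧ QXS q p r x0) :
    FinAt p q r := by
  have hm2 : -2 < (X - n) / 2 ^ 48 := by rw [lt_div_iff₀ (by positivity)]; linarith
  have h2' : (X + n) / 2 ^ 48 ≤ 2 := by rw [div_le_iff₀ (by positivity)]; linarith
  have hlh : (X - n) / 2 ^ 48 ≤ (X + n) / 2 ^ 48 :=
    div_le_div_of_nonneg_right (by linarith) (by positivity)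
  refine g_FIN' p q r (by omega) (by omega) (by omega) (certB (by omega) hpq hqr
    ((X - n) / 2 ^ 48) ((X + n) / 2 ^ 48) hm2 hlh h2' (Or.inl lo) hi hB ?_)
  intro x0 j1 j2 hT
  rw [div_le_iff₀ (by positivity)] at j1
  rw [le_div_iff₀ (by positivity)] at j2
  have h3 := h x0 (by rw [abs_le]; constructor <;> linarith) hT
  exact zf_of_qxS (by omega) hpq hqr (fun h => by omega) hT.gt hT.A1 h3.1 h3.2

/-- **TYPE A**: `x0 = x_A` -/
theorem fin_ptAS {p q r : ℕ} (hp : 10 ≤ p) (hpq : p ≤ q) (hqr : q ≤ r) (hr : r ≤ 15)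
    {X n : ℝ} (hX : -(2 ^ 49) < X - n) (hX2 : X + n ≤ 0) (hn : 0 ≤ n)
    (k1 : (X - n) * (((kbx p : ℝ) - 1) * ((kbx q : ℝ) - 1) * ((kbx r : ℝ) - 1) / 2 ^ 144) + 46 <
      2 ^ 48 * ((4 - ((kbx r : ℝ) / 2 ^ 48) ^ 2) - (4 - (4 - ((kbx p : ℝ) / 2 ^ 48) ^ 2)) *
        (4 - (4 - ((kbx q : ℝ) / 2 ^ 48) ^ 2))))
    (k2 : 2 ^ 48 * ((4 - ((kbx r : ℝ) / 2 ^ 48) ^ 2) - (4 - (4 - ((kbx p : ℝ) / 2 ^ 48) ^ 2)) *
        (4 - (4 - ((kbx q : ℝ) / 2 ^ 48) ^ 2))) + 46 ≤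
      (X + n) * (((kbx p : ℝ) + 1) * ((kbx q : ℝ) + 1) * ((kbx r : ℝ) + 1) / 2 ^ 144))
    (k3 : 1 / 2 ^ 28 ≤ fBx (((kbx p : ℝ) / 2 ^ 48) ^ 2 + ((kbx q : ℝ) / 2 ^ 48) ^ 2 +
      ((kbx r : ℝ) / 2 ^ 48) ^ 2 - 3) ((kbx p : ℝ) * (kbx q : ℝ) * (kbx r : ℝ) / 2 ^ 144)
        ((X + n) / 2 ^ 48))
    (h : ∀ x0 : ℝ, |2 ^ 48 * x0 - X| ≤ n → Thr p q r x0 → QXS p q r x0 ∧ QXS q p r x0) :
    FinAt p q r := by
  have h0 := KW.of hp (hpq.trans (hqr.trans hr))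
  have h1 := KW.of (hp.trans hpq) (hqr.trans hr)
  have h2 := KW.of (hp.trans (hpq.trans hqr)) hr
  have hK := pt_K h0 h1 h2
  have ha := pt_AG h0 h1 h2
  have a1 := pt_Kl h0 h1 h2
  have a2 := pt_Kh h0 h1 h2
  rw [abs_le] at ha
  set K := KK (Kp p) (Kp q) (Kp r) with hKd
  set Kl := ((kbx p : ℝ) - 1) * ((kbx q : ℝ) - 1) * ((kbx r : ℝ) - 1) / 2 ^ 144 with hKl
  set Kh := ((kbx p : ℝ) + 1) * ((kbx q : ℝ) + 1) * ((kbx r : ℝ) + 1) / 2 ^ 144 with hKh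
  set G := (4 - ((kbx r : ℝ) / 2 ^ 48) ^ 2) - (4 - (4 - ((kbx p : ℝ) / 2 ^ 48) ^ 2)) *
        (4 - (4 - ((kbx q : ℝ) / 2 ^ 48) ^ 2)) with hG
  have lo : (X - n) / 2 ^ 48 < xA p q r := by
    refine lt_of_mul_lt_mul_left ?_ hK.le
    have t1 : (X - n) * K ≤ (X - n) * Kl := mul_le_mul_of_nonpos_left a1 (by linarith)
    have t2 : K * ((X - n) / 2 ^ 48) = ((X - n) * K) / 2 ^ 48 := by ring
    rw [t2, div_lt_iff₀ (by positivity)]
    have t3 := ha.1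
    have t4 : 2 ^ 48 * (-(46 / 2 ^ 48) : ℝ) = -46 := by norm_num
    nlinarith
  have hi : xA p q r ≤ (X + n) / 2 ^ 48 := by
    refine le_of_mul_le_mul_left ?_ hK
    have t1 : (X + n) * Kh ≤ (X + n) * K := mul_le_mul_of_nonpos_left a2 hX2
    have t2 : K * ((X + n) / 2 ^ 48) = ((X + n) * K) / 2 ^ 48 := by ring
    rw [t2, le_div_iff₀ (by positivity)]
    have t3 := ha.2
    have t4 : 2 ^ 48 * ((46 / 2 ^ 48) : ℝ) = 46 := by norm_num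
    nlinarith
  have hm2 : -2 < (X - n) / 2 ^ 48 := by rw [lt_div_iff₀ (by positivity)]; linarith
  have h2' : (X + n) / 2 ^ 48 ≤ 2 := by rw [div_le_iff₀ (by positivity)]; linarith
  have hlh : (X - n) / 2 ^ 48 ≤ (X + n) / 2 ^ 48 :=
    div_le_div_of_nonneg_right (by linarith) (by positivity)
  have hB : 0 ≤ fB p q r ((X + n) / 2 ^ 48) := by
    have L := (abs_le.1 (fB_near h0 h1 h2 (x := (X + n) / 2 ^ 48) (by linarith) h2')).1
    linarith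
  exact fin_lhS hp hpq hqr hX hX2 hn lo hi hB h

/-- **TYPE B**: `fB x0 = 0` -/
theorem fin_ptBS {p q r : ℕ} (hp : 10 ≤ p) (hpq : p ≤ q) (hqr : q ≤ r) (hr : r ≤ 15)
    {X n c1 c2 : ℝ} (hD : PtD (kbx p) (kbx q) (kbx r) X n c1 c2) (hX : -(2 ^ 49) < X - n)
    (hlo : 30 / 2 ^ 48 < HH (4 - ((kbx p : ℝ) / 2 ^ 48) ^ 2) (4 - ((kbx q : ℝ) / 2 ^ 48) ^ 2)
        (4 - ((kbx r : ℝ) / 2 ^ 48) ^ 2) c2)
    (hlo2 : HH (4 - ((kbx p : ℝ) / 2 ^ 48) ^ 2) (4 - ((kbx q : ℝ) / 2 ^ 48) ^ 2)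
        (4 - ((kbx r : ℝ) / 2 ^ 48) ^ 2) c2 + 30 / 2 ^ 48 < 4 * (2 * c2 + 1) ^ 3)
    (hlA : (4 - ((kbx r : ℝ) / 2 ^ 48) ^ 2) - (4 - (4 - ((kbx p : ℝ) / 2 ^ 48) ^ 2)) *
        (4 - (4 - ((kbx q : ℝ) / 2 ^ 48) ^ 2)) + 76 / 2 ^ 48 <
      NN (4 - ((kbx p : ℝ) / 2 ^ 48) ^ 2) (4 - ((kbx q : ℝ) / 2 ^ 48) ^ 2)
        (4 - ((kbx r : ℝ) / 2 ^ 48) ^ 2) c2)
    (h : ∀ x0 : ℝ, |2 ^ 48 * x0 - X| ≤ n → Thr p q r x0 → fB p q r x0 = 0 →
      QXS p q r x0 ∧ QXS q p r x0) : FinAt p q r := by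
  have h0 := KW.of hp (hpq.trans (hqr.trans hr))
  have h1 := KW.of (hp.trans hpq) (hqr.trans hr)
  have h2 := KW.of (hp.trans (hpq.trans hqr)) hr
  have hK := pt_K h0 h1 h2
  have ha := pt_AG h0 h1 h2
  have hn := pt_N h0 h1 h2 c2
  have hb := pt_h h0 h1 h2 (hD.hc1.trans hD.hcc) hD.hc2
  rw [abs_le] at ha hn hb
  have hA : xA p q r < xBc (SS (Kp p) (Kp q) (Kp r)) (KK (Kp p) (Kp q) (Kp r)) c2 := by
    refine lt_of_mul_lt_mul_left ?_ hK.le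
    linarith [ha.2, hn.1]
  refine fin_ptS hp hpq hqr hr hD hX (Or.inr ?_) (fun x0 k k2 hT => h x0 k hT ?_)
  · have e : fB p q r (xBc (SS (Kp p) (Kp q) (Kp r)) (KK (Kp p) (Kp q) (Kp r)) c2) =
        hB (SS (Kp p) (Kp q) (Kp r)) (KK (Kp p) (Kp q) (Kp r)) c2 *
          (hB (SS (Kp p) (Kp q) (Kp r)) (KK (Kp p) (Kp q) (Kp r)) c2 - 4 * (2 * c2 + 1) ^ 3) := by
      rw [fB_eq]
      exact fBx_xBc hK.ne'
    rw [e]
    exact mul_neg_of_pos_of_neg (by linarith [hb.1]) (by linarith [hb.2])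
  · obtain ⟨j1, j2⟩ := xA_max' (by omega : 3 ≤ p) hpq hqr
    rcases hT.eq with e | e | e | e
    · exact absurd e (by intro e; rw [e] at k2; linarith)
    · exact absurd e (by intro e; rw [e] at k2; linarith)
    · exact absurd e (by intro e; rw [e] at k2; linarith)
    · exact e

/-- type A -/
theorem pt_10_10_10S (h : ∀ x0 : ℝ, |2 ^ 48 * x0 - (-519774541169504)| ≤ 64 → Thr 10 10 10 x0 →
    QXS 10 10 10 x0) : FinAt 10 10 10 := by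
  refine fin_ptAS (by norm_num) (by norm_num) (by norm_num) (by norm_num) (X := -519774541169504)
    (n := 64) (by norm_num) (by norm_num) (by norm_num) ?_ ?_ ?_ (fun x0 k hT => ⟨h x0 k hT, h x0 k hT⟩)
  · norm_num [kbx, Pool.Agent.Helper6.MONO.kb]
  · norm_num [kbx, Pool.Agent.Helper6.MONO.kb]
  · norm_num [fBx, kbx, Pool.Agent.Helper6.MONO.kb]

/-- type A -/
theorem pt_10_10_11S (h : ∀ x0 : ℝ, |2 ^ 48 * x0 - (-517818169445998)| ≤ 64 → Thr 10 10 11 x0 →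
    QXS 10 10 11 x0) : FinAt 10 10 11 := by
  refine fin_ptAS (by norm_num) (by norm_num) (by norm_num) (by norm_num) (X := -517818169445998)
    (n := 64) (by norm_num) (by norm_num) (by norm_num) ?_ ?_ ?_ (fun x0 k hT => ⟨h x0 k hT, h x0 k hT⟩)
  · norm_num [kbx, Pool.Agent.Helper6.MONO.kb]
  · norm_num [kbx, Pool.Agent.Helper6.MONO.kb]
  · norm_num [fBx, kbx, Pool.Agent.Helper6.MONO.kb]

/-- type A -/
theorem pt_10_11_11S (h : ∀ x0 : ℝ, |2 ^ 48 * x0 - (-522638888159706)| ≤ 64 → Thr 10 11 11 x0 →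
    QXS 10 11 11 x0) : FinAt 10 11 11 := by
  refine fin_ptAS (by norm_num) (by norm_num) (by norm_num) (by norm_num) (X := -522638888159706)
    (n := 64) (by norm_num) (by norm_num) (by norm_num) ?_ ?_ ?_ (fun x0 k hT => ⟨h x0 k hT, (h x0 k hT).rot2⟩)
  · norm_num [kbx, Pool.Agent.Helper6.MONO.kb]
  · norm_num [kbx, Pool.Agent.Helper6.MONO.kb]
  · norm_num [fBx, kbx, Pool.Agent.Helper6.MONO.kb]

/-- type B -/
theorem pt_11_11_11S (h : ∀ x0 : ℝ, |2 ^ 48 * x0 - (-526230987637360)| ≤ 64 → Thr 11 11 11 x0 →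
    fB 11 11 11 x0 = 0 → QXS 11 11 11 x0) : FinAt 11 11 11 :=
  fin_ptBS (by norm_num) (by norm_num) (by norm_num) (by norm_num) ptd_11_11_11 (by norm_num)
    (by norm_num [HH, kbx, Pool.Agent.Helper6.MONO.kb])
    (by norm_num [HH, kbx, Pool.Agent.Helper6.MONO.kb])
    (by norm_num [NN, kbx, Pool.Agent.Helper6.MONO.kb])
    (fun x0 k hT hB => ⟨h x0 k hT hB, h x0 k hT hB⟩)

/-- type A -/
theorem pt_11_11_12S (h : ∀ x0 : ℝ, |2 ^ 48 * x0 - (-525947583595187)| ≤ 64 → Thr 11 11 12 x0 →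
    QXS 11 11 12 x0) : FinAt 11 11 12 := by
  refine fin_ptAS (by norm_num) (by norm_num) (by norm_num) (by norm_num) (X := -525947583595187)
    (n := 64) (by norm_num) (by norm_num) (by norm_num) ?_ ?_ ?_ (fun x0 k hT => ⟨h x0 k hT, h x0 k hT⟩)
  · norm_num [kbx, Pool.Agent.Helper6.MONO.kb]
  · norm_num [kbx, Pool.Agent.Helper6.MONO.kb]
  · norm_num [fBx, kbx, Pool.Agent.Helper6.MONO.kb]

/-- type A -/
theorem pt_11_11_13S (h : ∀ x0 : ℝ, |2 ^ 48 * x0 - (-524760122756531)| ≤ 64 → Thr 11 11 13 x0 →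
    QXS 11 11 13 x0) : FinAt 11 11 13 := by
  refine fin_ptAS (by norm_num) (by norm_num) (by norm_num) (by norm_num) (X := -524760122756531)
    (n := 64) (by norm_num) (by norm_num) (by norm_num) ?_ ?_ ?_ (fun x0 k hT => ⟨h x0 k hT, h x0 k hT⟩)
  · norm_num [kbx, Pool.Agent.Helper6.MONO.kb]
  · norm_num [kbx, Pool.Agent.Helper6.MONO.kb]
  · norm_num [fBx, kbx, Pool.Agent.Helper6.MONO.kb]

/-- type B -/
theorem pt_11_12_12S (h : ∀ x0 : ℝ, |2 ^ 48 * x0 - (-527450410111083)| ≤ 64 → Thr 11 12 12 x0 →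
    fB 11 12 12 x0 = 0 → QXS 11 12 12 x0) : FinAt 11 12 12 :=
  fin_ptBS (by norm_num) (by norm_num) (by norm_num) (by norm_num) ptd_11_12_12 (by norm_num)
    (by norm_num [HH, kbx, Pool.Agent.Helper6.MONO.kb])
    (by norm_num [HH, kbx, Pool.Agent.Helper6.MONO.kb])
    (by norm_num [NN, kbx, Pool.Agent.Helper6.MONO.kb])
    (fun x0 k hT hB => ⟨h x0 k hT hB, (h x0 k hT hB).rot2⟩)

/-- type B -/
theorem pt_12_12_12S (h : ∀ x0 : ℝ, |2 ^ 48 * x0 - (-528076481262331)| ≤ 64 → Thr 12 12 12 x0 →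
    fB 12 12 12 x0 = 0 → QXS 12 12 12 x0) : FinAt 12 12 12 :=
  fin_ptBS (by norm_num) (by norm_num) (by norm_num) (by norm_num) ptd_12_12_12 (by norm_num)
    (by norm_num [HH, kbx, Pool.Agent.Helper6.MONO.kb])
    (by norm_num [HH, kbx, Pool.Agent.Helper6.MONO.kb])
    (by norm_num [NN, kbx, Pool.Agent.Helper6.MONO.kb])
    (fun x0 k hT hB => ⟨h x0 k hT hB, h x0 k hT hB⟩)

/-- type B -/
theorem pt_12_12_13S (h : ∀ x0 : ℝ, |2 ^ 48 * x0 - (-528531034854177)| ≤ 64 → Thr 12 12 13 x0 →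
    fB 12 12 13 x0 = 0 → QXS 12 12 13 x0) : FinAt 12 12 13 :=
  fin_ptBS (by norm_num) (by norm_num) (by norm_num) (by norm_num) ptd_12_12_13 (by norm_num)
    (by norm_num [HH, kbx, Pool.Agent.Helper6.MONO.kb])
    (by norm_num [HH, kbx, Pool.Agent.Helper6.MONO.kb])
    (by norm_num [NN, kbx, Pool.Agent.Helper6.MONO.kb])
    (fun x0 k hT hB => ⟨h x0 k hT hB, h x0 k hT hB⟩)

/-- type B -/
theorem pt_12_13_13S (h : ∀ x0 : ℝ, |2 ^ 48 * x0 - (-528991923336971)| ≤ 64 → Thr 12 13 13 x0 →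
    fB 12 13 13 x0 = 0 → QXS 12 13 13 x0) : FinAt 12 13 13 :=
  fin_ptBS (by norm_num) (by norm_num) (by norm_num) (by norm_num) ptd_12_13_13 (by norm_num)
    (by norm_num [HH, kbx, Pool.Agent.Helper6.MONO.kb])
    (by norm_num [HH, kbx, Pool.Agent.Helper6.MONO.kb])
    (by norm_num [NN, kbx, Pool.Agent.Helper6.MONO.kb])
    (fun x0 k hT hB => ⟨h x0 k hT hB, (h x0 k hT hB).rot2⟩)

/-- type B -/
theorem pt_13_13_13S (h : ∀ x0 : ℝ, |2 ^ 48 * x0 - (-529458346935868)| ≤ 64 → Thr 13 13 13 x0 →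
    fB 13 13 13 x0 = 0 → QXS 13 13 13 x0) : FinAt 13 13 13 :=
  fin_ptBS (by norm_num) (by norm_num) (by norm_num) (by norm_num) ptd_13_13_13 (by norm_num)
    (by norm_num [HH, kbx, Pool.Agent.Helper6.MONO.kb])
    (by norm_num [HH, kbx, Pool.Agent.Helper6.MONO.kb])
    (by norm_num [NN, kbx, Pool.Agent.Helper6.MONO.kb])
    (fun x0 k hT hB => ⟨h x0 k hT hB, h x0 k hT hB⟩)

/-- type B -/
theorem pt_13_13_14S (h : ∀ x0 : ℝ, |2 ^ 48 * x0 - (-529809469146156)| ≤ 64 → Thr 13 13 14 x0 →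
    fB 13 13 14 x0 = 0 → QXS 13 13 14 x0) : FinAt 13 13 14 :=
  fin_ptBS (by norm_num) (by norm_num) (by norm_num) (by norm_num) ptd_13_13_14 (by norm_num)
    (by norm_num [HH, kbx, Pool.Agent.Helper6.MONO.kb])
    (by norm_num [HH, kbx, Pool.Agent.Helper6.MONO.kb])
    (by norm_num [NN, kbx, Pool.Agent.Helper6.MONO.kb])
    (fun x0 k hT hB => ⟨h x0 k hT hB, h x0 k hT hB⟩)

end Pool.Agent.Helper84.UC
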