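import Pool.Agent.Helper84.UC.U
import Pool.Agent.Helper81.MIT.TopT4

/-!
The final statements of single triples and of three tails from quarters with star shaped regions.
-/

set_option autoImplicit false
set_option exponentiation.threshold 4000
noncomputable section
namespace Pool.Agent.Helper84.UC

open Pool.Agent.Helper84.ST
open Pool.Agent.Helper6.MONO
open Pool.Agent.Helper6.MONO.QTR
open Pool.Agent.Helper6.MONO.W2 (Win)
open Pool.Agent.Helper21.XB (xBp thr_xBp cert_xBp xBp_swap)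
open Pool.Agent.Helper81.MIT (fin_T two_at)

/-- type A: the two quarters of the line `Re x = xA` -/
theorem finAS {p q r : ℕ} (hp : 3 ≤ p) (hpq : p ≤ q) (hqr : q ≤ r)
    (hne : ¬ (p = 3 ∧ q = 3 ∧ r = 3)) (h1 : QXS p q r (xA p q r)) (h2 : QXS q p r (xA p q r)) :
    FinAt p q r :=
  g_FIN' p q r hp (hp.trans hpq) (hp.trans (hpq.trans hqr)) (certA hp hpq hqr
    (zf_of_qxS hp hpq hqr hne (xA_gt hp (hp.trans hpq) hqr) le_rfl h1 h2))

/-- type A, two equal orders in the last places: one quarter -/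
theorem finA3S {p q : ℕ} (hp : 3 ≤ p) (hpq : p ≤ q) (hne : ¬ (p = 3 ∧ q = 3))
    (h : QXS p q q (xA p q q)) : FinAt p q q :=
  finAS hp hpq le_rfl (fun h => hne ⟨h.1, h.2.1⟩) h h.rot2

/-- type B: threshold by the two inequalities -/
theorem finBS {p q r : ℕ} (hp : 3 ≤ p) (hpq : p ≤ q) (hqr : q ≤ r)
    (hne : ¬ (p = 3 ∧ q = 3 ∧ r = 3))
    (h : ∀ x0 : ℝ, Thr p q r x0 → QXS p q r x0 ∧ QXS q p r x0) : FinAt p q r :=
  g_FIN' p q r hp (hp.trans hpq) (hp.trans (hpq.trans hqr)) (certT hp hpq hqr (fun x0 hT =>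
    zf_of_qxS hp hpq hqr hne hT.gt hT.A1 (h x0 hT).1 (h x0 hT).2))

/-- plan W: the two quarters of the line `Re x = m` and the window -/
theorem finWS {p q r : ℕ} (hp : 3 ≤ p) (hpq : p ≤ q) (hqr : q ≤ r)
    (hne : ¬ (p = 3 ∧ q = 3 ∧ r = 3)) {m : ℝ} (hm : xA p q r ≤ m) (hm2 : m ≤ 2)
    (h1 : QXS p q r m) (h2 : QXS q p r m) (hW : Win p q r (xA p q r) m) : FinAt p q r :=
  finAt_win' hp hpq hqr hm hm2 (zf_of_qxS hp hpq hqr hne
    (by have := xA_gt hp (hp.trans hpq) hqr; linarith) hm h1 h2) hW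

/-- THREE TAILS: the final statement from the quarters with the largest order in the last place -/
theorem fin_3S {N : ℕ} (hN : 14 ≤ N)
    (h : ∀ p q r : ℕ, N ≤ p → N ≤ q → p ≤ r → q ≤ r → QXS p q r (xBp p q r)) :
    ∀ p q r : ℕ, N ≤ p → p ≤ q → q ≤ r → FinAt p q r := by
  intro p q r hp hpq hqr
  have hT := thr_xBp (hN.trans hp) (hN.trans (hp.trans hpq)) (hN.trans (hp.trans (hpq.trans hqr)))
  refine g_FIN' p q r (by omega) (by omega) (by omega) (cert_xBp (hN.trans hp) (by omega)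
    (by omega) ?_)
  refine zf_of_qxS (by omega) hpq hqr (fun h => by omega) hT.gt hT.A1
    (h p q r hp (by omega) (hpq.trans hqr) hqr) ?_
  have h2 := h q p r (by omega) hp hqr (hpq.trans hqr)
  rw [xBp_swap] at h2
  exact h2

/-- the quarters from the cells -/
theorem qx_3S {N : ℕ} (hN : 14 ≤ N) {B : ℝ} (hB : 0 ≤ B)
    (h : ∀ p q r : ℕ, N ≤ p → N ≤ q → p ≤ r → q ≤ r → CU p q r (xBp p q r) 0 B)
    (hF : ∀ p q r : ℕ, N ≤ p → N ≤ q → p ≤ r → q ≤ r → Far p q r (xBp p q r) B) :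
    ∀ p q r : ℕ, N ≤ p → N ≤ q → p ≤ r → q ≤ r → QXS p q r (xBp p q r) := by
  intro p q r hp hq hpr hqr
  have hT := thr_xBp (hN.trans hp) (hN.trans hq) (hN.trans (hp.trans hpr))
  exact qxS_of_cu (by omega) (by omega) (by omega) hT.gt hT.le hB (h p q r hp hq hpr hqr)
    (hF p q r hp hq hpr hqr)

/-- THE FINAL STATEMENT, form 4 with the three tails as final statements -/
theorem top_tails4' (m : ℕ → ℕ → ℕ → ℕ)
    (hm : ∀ p q r : ℕ, 3 ≤ p → p ≤ 13 → 10 ≤ q → p ≤ q → q ≤ r →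
      xA p q r ≤ -((m p q r : ℕ) : ℝ) / 2 ^ 48)
    (D : ℕ → ℕ → ℕ → Prop)
    (H1 : ∀ p q r : ℕ, 3 ≤ p → p ≤ q → q ≤ r → r ≤ 9 → ¬ (p = 3 ∧ q = 3 ∧ r = 3) → FinAt p q r)
    (H2 : ∀ p q r : ℕ, 3 ≤ p → p ≤ q → q ≤ 9 → 10 ≤ r → FinAt p q r)
    (H3 : ∀ p q r : ℕ, 3 ≤ p → p ≤ 13 → 10 ≤ q → p ≤ q → q ≤ r →
      QX p q r (-((m p q r : ℕ) : ℝ) / 2 ^ 48) ∧ QX p r q (-((m p q r : ℕ) : ℝ) / 2 ^ 48))
    (HW : ∀ p q r : ℕ, 3 ≤ p → p ≤ 9 → 10 ≤ q → q ≤ r →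
      Win p q r (xA p q r) (-((m p q r : ℕ) : ℝ) / 2 ^ 48))
    (HB : ∀ p q r : ℕ, 10 ≤ p → p ≤ 13 → p ≤ q → q ≤ r → ¬ D p q r →
      ∀ x0 : ℝ, xA p q r ≤ x0 → x0 ≤ -((m p q r : ℕ) : ℝ) / 2 ^ 48 →
      (∀ x : ℝ, x0 < x → x ≤ -((m p q r : ℕ) : ℝ) / 2 ^ 48 → 0 ≤ fB p q r x) →
      Win p q r x0 (-((m p q r : ℕ) : ℝ) / 2 ^ 48))
    (HD : ∀ p q r : ℕ, 10 ≤ p → p ≤ 13 → p ≤ q → q ≤ r → D p q r → FinAt p q r)
    (H4 : ∀ p q r : ℕ, 14 ≤ p → p ≤ q → q ≤ r → FinAt p q r) : ST_FIN := by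
  classical
  refine top_split H1 H2 ?_ ?_
  · intro p q r hp hp9 hq hqr
    have h := H3 p q r hp (by omega) hq (by omega) hqr
    exact two_at hp (by omega) hq (by omega) hqr (hm p q r hp (by omega) hq (by omega) hqr) h.1 h.2
      (fun _ => HW p q r hp hp9 hq hqr) (fun h => absurd h (by omega))
  · intro p q r hp hpq hqr
    rcases Nat.lt_or_ge p 14 with h | h
    · by_cases hD : D p q r
      · exact HD p q r hp (by omega) hpq hqr hD
      · have h3 := H3 p q r (by omega) (by omega) (by omega) hpq hqr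
        exact two_at (by omega) (by omega) (by omega) hpq hqr
          (hm p q r (by omega) (by omega) (by omega) hpq hqr) h3.1 h3.2
          (fun h => absurd h (by omega)) (fun _ => HB p q r hp (by omega) hpq hqr hD)
    · exact H4 p q r h hpq hqr

end Pool.Agent.Helper84.UC
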